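import Pool.Agent.R80.MB.Core

/-!
# Project MB, piece MB-MAT
-/

set_option autoImplicit false

namespace Pool.Agent.R80.MB

open MeasureTheory Set Filter Topology Pool.Agent.R751.MB
open scoped ENNReal InnerProductSpace Pointwise

/-- the statement of `Pool.Agent.Results.MP_6d896a_gt.OrthogonalInvariant.result` -/
def R_MAT : Prop := ∃ C : ℝ, 0 < C ∧ ∀ m n : ℕ, 3 ≤ m → n ≤ m →
    ∀ ρ : EuclideanSpace ℝ (Fin m × Fin n) → ℝ, Measurable ρ → (∀ X, 0 ≤ ρ X) →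
    (∀ X Y, ∀ t : ℝ, 0 < t → t < 1 →
      ρ X ^ (1 - t) * ρ Y ^ t ≤ ρ ((1 - t) • X + t • Y)) →
    (∀ g ∈ Matrix.orthogonalGroup (Fin m) ℝ, ∀ X : EuclideanSpace ℝ (Fin m × Fin n),
      ρ (WithLp.toLp 2 fun p => ∑ k, g p.1 k * X (k, p.2)) = ρ X) →
    ∀ μ : Measure (EuclideanSpace ℝ (Fin m × Fin n)),
    μ = volume.withDensity (fun X => ENNReal.ofReal (ρ X)) → IsProbabilityMeasure μ →
    ∀ s : ℝ, 0 < s →
    (∀ θ : EuclideanSpace ℝ (Fin m × Fin n),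
      ∫⁻ X, ENNReal.ofReal (⟪θ, X⟫_ℝ ^ 2) ∂μ ≤ ENNReal.ofReal (s * ‖θ‖ ^ 2)) →
    ∀ f : EuclideanSpace ℝ (Fin m × Fin n) → ℝ, ContDiff ℝ 1 f → MemLp f 2 μ →
    ENNReal.ofReal (ProbabilityTheory.variance f μ) ≤
      ENNReal.ofReal (C * s) * ∫⁻ X, ENNReal.ofReal (‖fderiv ℝ f X‖ ^ 2) ∂μ

/-- multiplication by an orthogonal matrix preserves the sum of squares -/
theorem orth_sq {m : ℕ} (g : Matrix (Fin m) (Fin m) ℝ) (hg : g ∈ Matrix.orthogonalGroup (Fin m) ℝ)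
    (v : Fin m → ℝ) : ∑ i, (∑ k, g i k * v k) ^ 2 = ∑ k, v k ^ 2 := by
  have h1 : g.transpose * g = 1 := by
    have := (Matrix.mem_orthogonalGroup_iff' (Fin m) ℝ).1 hg
    simpa [Matrix.star_eq_conjTranspose] using this
  have h2 : (g.mulVec v) ⬝ᵥ (g.mulVec v) = v ⬝ᵥ v := by
    rw [Matrix.dotProduct_mulVec, ← Matrix.mulVec_transpose, Matrix.mulVec_mulVec, h1,
      Matrix.one_mulVec]
  simpa [dotProduct, Matrix.mulVec, sq] using h2

/-- the left multiplication by an orthogonal matrix is a linear isometry -/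
theorem exists_iso {m l : ℕ} (g : Matrix (Fin m) (Fin m) ℝ)
    (hg : g ∈ Matrix.orthogonalGroup (Fin m) ℝ) : ∃ G : Mat m l ≃ₗᵢ[ℝ] Mat m l,
    ∀ X : Mat m l, G X = WithLp.toLp 2 fun p => ∑ k, g p.1 k * X (k, p.2) := by
  let L : Mat m l →ₗ[ℝ] Mat m l :=
    { toFun := fun X => WithLp.toLp 2 fun p => ∑ k, g p.1 k * X (k, p.2)
      map_add' := by
        intro X Y
        ext p
        simp [mul_add, Finset.sum_add_distrib]
      map_smul' := by
        intro c X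
        ext p
        simp only [PiLp.smul_apply, smul_eq_mul, RingHom.id_apply, Finset.mul_sum]
        refine Finset.sum_congr rfl fun k _ => by ring }
  have hn : ∀ X : Mat m l, ‖L X‖ = ‖X‖ := by
    intro X
    have h1 : ‖L X‖ ^ 2 = ‖X‖ ^ 2 := by
      rw [EuclideanSpace.norm_sq_eq, EuclideanSpace.norm_sq_eq]
      simp only [Real.norm_eq_abs, sq_abs]
      rw [Fintype.sum_prod_type_right, Fintype.sum_prod_type_right]
      refine Finset.sum_congr rfl fun j _ => ?_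
      exact orth_sq g hg fun k => X (k, j)
    have := (sq_eq_sq₀ (norm_nonneg _) (norm_nonneg _)).1 h1
    exact this
  let L' : Mat m l →ₗᵢ[ℝ] Mat m l := ⟨L, hn⟩
  refine ⟨L'.toLinearIsometryEquiv rfl, fun X => rfl⟩

theorem mat (hR : R_MAT) (hWHT : S_WHT) (hGEN : S_GEN) : S_MAT := by
  obtain ⟨C, hC, h⟩ := hR
  refine ⟨C, hC, ?_⟩
  intro m l w hm _ hl hw hlc hinv
  obtain ⟨ρ, μ, hμ, hprob, hmeas, hnn, hρlc, hρinv, hev, hAP⟩ := core hWHT hGEN w hw hlc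
  have hρg : ∀ g ∈ Matrix.orthogonalGroup (Fin m) ℝ, ∀ X : Mat m l,
      ρ (WithLp.toLp 2 fun p => ∑ k, g p.1 k * X (k, p.2)) = ρ X := by
    intro g hg X
    obtain ⟨G, hG⟩ := exists_iso (l := l) g hg
    rw [← hG]
    refine hρinv G (fun x => ?_) X
    rw [hG]
    exact hinv g hg x
  have hneg : ∀ X, ρ (-X) = ρ X := by
    intro X
    have h1 : (-1 : Matrix (Fin m) (Fin m) ℝ) ∈ Matrix.orthogonalGroup (Fin m) ℝ := by
      rw [Matrix.mem_orthogonalGroup_iff]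
      simp
    rw [← hρg (-1) h1 X]
    congr 1
    ext p
    simp [Matrix.one_apply]
  have hmom := mom ρ μ hμ hmeas hneg hev
  refine hAP C hC.le ?_
  intro f hf hfL
  have := h m l hm hl ρ hmeas hnn hρlc hρg μ hμ hprob 1 one_pos hmom f hf hfL
  rwa [mul_one] at this

end Pool.Agent.R80.MB
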