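import Pool.Agent.R80.MB.Core

/-!
# Project MB, piece MB-SYM
-/

set_option autoImplicit false

namespace Pool.Agent.R80.MB

open MeasureTheory Set Filter Topology Pool.Agent.R751.MB
open scoped ENNReal InnerProductSpace Pointwise

/-- the statement of `Pool.Agent.Results.MP_6d896a_gt.OneSymmetric.result` (with the structure
`SymDensity` unfolded) -/
def R_SYM : Prop := ∃ C : ℝ, 0 < C ∧ ∀ n : ℕ, 1 ≤ n →
    ∀ ρ : EuclideanSpace ℝ (Fin n) → ℝ, (∀ x, 0 ≤ ρ x) → Measurable ρ →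
    (∀ x y, ∀ t : ℝ, 0 < t → t < 1 → ρ x ^ (1 - t) * ρ y ^ t ≤ ρ ((1 - t) • x + t • y)) →
    (∀ σ : Equiv.Perm (Fin n), ∀ x y : EuclideanSpace ℝ (Fin n),
      (∀ i, |y i| = |x (σ i)|) → ρ y = ρ x) →
    ∀ μ : Measure (EuclideanSpace ℝ (Fin n)),
    μ = volume.withDensity (fun x => ENNReal.ofReal (ρ x)) → IsProbabilityMeasure μ →
    ∀ s : ℝ, 0 < s → (∀ i, ∫⁻ x, ENNReal.ofReal (x i ^ 2) ∂μ ≤ ENNReal.ofReal s) →
    ∀ f : EuclideanSpace ℝ (Fin n) → ℝ, ContDiff ℝ 1 f → MemLp f 2 μ →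
    ENNReal.ofReal (ProbabilityTheory.variance f μ) ≤
      ENNReal.ofReal (C * s) * ∫⁻ x, ENNReal.ofReal (‖fderiv ℝ f x‖ ^ 2) ∂μ

/-- signed permutations are linear isometries -/
theorem exists_signed {n : ℕ} (σ : Equiv.Perm (Fin n)) (ε : Fin n → ℝ) (hε : ∀ i, |ε i| = 1) :
    ∃ G : Eu (Fin n) ≃ₗᵢ[ℝ] Eu (Fin n), ∀ x i, G x i = ε i * x (σ i) := by
  let L : Eu (Fin n) →ₗ[ℝ] Eu (Fin n) :=
    { toFun := fun x => WithLp.toLp 2 fun i => ε i * x (σ i)
      map_add' := by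
        intro X Y
        ext p
        simp [mul_add]
      map_smul' := by
        intro c X
        ext p
        simp only [PiLp.smul_apply, smul_eq_mul, RingHom.id_apply]
        ring }
  have hn : ∀ X : Eu (Fin n), ‖L X‖ = ‖X‖ := by
    intro X
    have h1 : ‖L X‖ ^ 2 = ‖X‖ ^ 2 := by
      rw [EuclideanSpace.norm_sq_eq, EuclideanSpace.norm_sq_eq]
      simp only [Real.norm_eq_abs, sq_abs]
      rw [← Equiv.sum_comp σ (fun i => X i ^ 2)]
      refine Finset.sum_congr rfl fun j _ => ?_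
      have h2 : ε j ^ 2 = 1 := by rw [← sq_abs, hε, one_pow]
      change (ε j * X (σ j)) ^ 2 = _
      rw [mul_pow, h2, one_mul]
    exact (sq_eq_sq₀ (norm_nonneg _) (norm_nonneg _)).1 h1
  let L' : Eu (Fin n) →ₗᵢ[ℝ] Eu (Fin n) := ⟨L, hn⟩
  exact ⟨L'.toLinearIsometryEquiv rfl, fun x i => rfl⟩

theorem sym (hR : R_SYM) (hWHT : S_WHT) (hGEN : S_GEN) : S_SYM := by
  obtain ⟨C, hC, h⟩ := hR
  refine ⟨C, hC, ?_⟩
  intro n w hn hw hlc hinv
  obtain ⟨ρ, μ, hμ, hprob, hmeas, hnn, hρlc, hρinv, hev, hAP⟩ := core hWHT hGEN w hw hlc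
  have hρg : ∀ σ : Equiv.Perm (Fin n), ∀ x y : Eu (Fin n), (∀ i, |y i| = |x (σ i)|) →
      ρ y = ρ x := by
    intro σ x y hxy
    -- the signs
    let ε : Fin n → ℝ := fun i => if x (σ i) = y i then 1 else -1
    have hε : ∀ i, |ε i| = 1 := by
      intro i
      simp only [ε]
      split_ifs <;> simp
    obtain ⟨G, hG⟩ := exists_signed σ ε hε
    have hGx : G x = y := by
      ext i
      rw [hG]
      simp only [ε]
      split_ifs with h1
      · rw [one_mul, h1]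
      · rcases abs_eq_abs.1 (hxy i) with h2 | h2
        · exact absurd h2.symm h1
        · rw [h2]
          ring
    rw [← hGx]
    refine hρinv G (fun z => ?_) x
    refine hinv σ z (G z) fun i => ?_
    rw [hG, abs_mul, hε, one_mul]
  have hneg : ∀ X, ρ (-X) = ρ X := by
    intro X
    exact hρg (Equiv.refl _) X (-X) fun i => by simp
  have hmom := mom ρ μ hμ hmeas hneg hev
  have hmom' : ∀ i, ∫⁻ x, ENNReal.ofReal (x i ^ 2) ∂μ ≤ ENNReal.ofReal 1 := by
    intro i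
    have h1 := hmom (EuclideanSpace.single i 1)
    simpa [EuclideanSpace.inner_single_left] using h1
  refine hAP C hC.le ?_
  intro f hf hfL
  have := h n hn ρ hnn hmeas hρlc hρg μ hμ hprob 1 one_pos hmom' f hf hfL
  rwa [mul_one] at this

end Pool.Agent.R80.MB
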