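import Pool.Agent.R751.MB.Stm

/-!
# Project MB, common part of MB-MAT, MB-SYM, MB-HER
-/

set_option autoImplicit false

namespace Pool.Agent.R80.MB

open MeasureTheory Set Filter Topology Pool.Agent.R751.MB
open scoped ENNReal InnerProductSpace Pointwise

/-- the density in isotropic position -/
theorem core (hWHT : S_WHT) (hGEN : S_GEN) {κ : Type} [Fintype κ] (w : Eu κ → ℝ) (hw : Adm w)
    (hlc : LCn w) : ∃ ρ : Eu κ → ℝ, ∃ μ : Measure (Eu κ),
      μ = volume.withDensity (fun y => ENNReal.ofReal (ρ y)) ∧ IsProbabilityMeasure μ ∧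
      Measurable ρ ∧ (∀ x, 0 ≤ ρ x) ∧
      (∀ x y, ∀ t : ℝ, 0 < t → t < 1 → ρ x ^ (1 - t) * ρ y ^ t ≤ ρ ((1 - t) • x + t • y)) ∧
      (∀ g : Eu κ ≃ₗᵢ[ℝ] Eu κ, (∀ x, w (g x) = w x) → ∀ x, ρ (g x) = ρ x) ∧
      (∀ θ : Eu κ, ProbabilityTheory.evariance (fun x => ⟪θ, x⟫_ℝ) μ ≤
        ENNReal.ofReal (1 * ‖θ‖ ^ 2)) ∧
      (∀ C : ℝ, 0 ≤ C → (∀ f : Eu κ → ℝ, ContDiff ℝ 1 f → MemLp f 2 μ →
        ENNReal.ofReal (ProbabilityTheory.variance f μ) ≤
          ENNReal.ofReal C * ∫⁻ x, ENNReal.ofReal (‖fderiv ℝ f x‖ ^ 2) ∂μ) → AP C w) := by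
  obtain ⟨S, hS, hcomm⟩ := hWHT κ w hw
  obtain ⟨c, hc, hmu⟩ := hGEN κ w hw S hS
  obtain ⟨hprob, hev, hf⟩ := hmu (volume.withDensity (fun y => ENNReal.ofReal (c * w (S.symm y)))) rfl
  refine ⟨fun y => c * w (S.symm y), _, rfl, hprob, ?_, ?_, ?_, ?_, hev, ?_⟩
  · exact measurable_const.mul (hw.meas.comp S.symm.continuous.measurable)
  · intro x
    exact mul_nonneg hc.le (hw.nonneg _)
  · intro x y t ht0 ht1
    have h1 := hlc (S.symm x) (S.symm y) t ht0 ht1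
    have h2 : c ^ (1 - t) * c ^ t = c := by
      rw [← Real.rpow_add hc]
      simp
    rw [Real.mul_rpow hc.le (hw.nonneg _), Real.mul_rpow hc.le (hw.nonneg _)]
    calc c ^ (1 - t) * w (S.symm x) ^ (1 - t) * (c ^ t * w (S.symm y) ^ t)
        = (c ^ (1 - t) * c ^ t) * (w (S.symm x) ^ (1 - t) * w (S.symm y) ^ t) := by ring
      _ = c * (w (S.symm x) ^ (1 - t) * w (S.symm y) ^ t) := by rw [h2]
      _ ≤ c * w ((1 - t) • S.symm x + t • S.symm y) := mul_le_mul_of_nonneg_left h1 hc.le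
      _ = c * w (S.symm ((1 - t) • x + t • y)) := by simp
  · intro g hg x
    have h1 := hcomm g hg (S.symm x)
    have h2 : S.symm (g x) = g (S.symm x) := by
      rw [ContinuousLinearEquiv.symm_apply_eq, h1]
      simp
    simp only []
    rw [h2, hg]
  · intro C hC hP
    refine ⟨hw, S, hS, ?_⟩
    intro f hf1 hB hL
    obtain ⟨h1, h2, h3⟩ := hf f hf1 hB hL
    have h4 := hP f hf1 h1
    rw [h2, h3, ← ENNReal.ofReal_mul hC] at h4
    refine (ENNReal.ofReal_le_ofReal_iff ?_).1 h4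
    refine mul_nonneg hC ?_
    refine div_nonneg (integral_nonneg fun x => mul_nonneg (by positivity) (hw.nonneg x)) ?_
    exact hw.pos.le

/-- second moments for even densities -/
theorem mom {κ : Type} [Fintype κ] (ρ : Eu κ → ℝ) (μ : Measure (Eu κ))
    (hμ : μ = volume.withDensity (fun y => ENNReal.ofReal (ρ y))) (hm : Measurable ρ)
    (hneg : ∀ x, ρ (-x) = ρ x)
    (hev : ∀ θ : Eu κ, ProbabilityTheory.evariance (fun x => ⟪θ, x⟫_ℝ) μ ≤
        ENNReal.ofReal (1 * ‖θ‖ ^ 2)) (θ : Eu κ) :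
    ∫⁻ x, ENNReal.ofReal (⟪θ, x⟫_ℝ ^ 2) ∂μ ≤ ENNReal.ofReal (1 * ‖θ‖ ^ 2) := by
  have h0 : ∫ x, ⟪θ, x⟫_ℝ ∂μ = 0 := by
    rw [hμ, integral_withDensity_eq_integral_toReal_smul (by fun_prop)
      (Filter.Eventually.of_forall fun x => ENNReal.ofReal_lt_top)]
    have h1 : ∫ x : Eu κ, (ENNReal.ofReal (ρ x)).toReal • ⟪θ, x⟫_ℝ =
        ∫ x : Eu κ, -((ENNReal.ofReal (ρ x)).toReal • ⟪θ, x⟫_ℝ) := by
      rw [← integral_neg_eq_self]
      refine integral_congr_ae (Filter.Eventually.of_forall fun x => ?_)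
      simp only [hneg, inner_neg_right, smul_neg]
    rw [integral_neg] at h1
    linarith
  refine le_trans (le_of_eq ?_) (hev θ)
  rw [ProbabilityTheory.evariance]
  refine lintegral_congr fun x => ?_
  rw [h0, sub_zero, Real.enorm_eq_ofReal_abs, ← ENNReal.ofReal_pow (abs_nonneg _), sq_abs]

end Pool.Agent.R80.MB
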